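import Pool.Agent.Lib.helper32.TowerC

set_option autoImplicit false

namespace Pool.Agent.Results.MP_1b3842_gt.Scale

open Filter Set Cardinal Pool.Agent.Lib.helper32.Hom

/-- A point `a` of the Cantor space codes an infinite subset of `ℕ`. -/
def Inf (a : ℕ → Bool) : Prop := {n | a n = true}.Infinite

/-- The increasing enumeration of the subset of `ℕ` coded by `a`. -/
noncomputable def en (a : ℕ → Bool) : ℕ → ℕ := Nat.nth fun n => a n = true

/-- `a ≤* b`. -/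
def LeS (a b : ℕ → Bool) : Prop := ∀ᶠ n in atTop, en a n ≤ en b n

/-- `a ≤^∞ b`. -/
def LeI (a b : ℕ → Bool) : Prop := ∃ᶠ n in atTop, en a n ≤ en b n

/-- The bounding number: least size of a `≤*`-unbounded family of infinite subsets of `ℕ`. -/
noncomputable def bnum : Cardinal.{0} := sInf {κ | ∃ F : Set (ℕ → Bool), (∀ a ∈ F, Inf a) ∧
  (¬ ∃ b, Inf b ∧ ∀ a ∈ F, LeS a b) ∧ #F = κ}

/-- `X` is a cFin-scale. -/
def IsScale (X : Set (ℕ → Bool)) : Prop := (∀ x ∈ X, Inf x) ∧ bnum ≤ #X ∧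
  ∀ b, Inf b → ∃ c, Inf c ∧ LeI b c ∧ #{x ∈ X | ¬ LeS c x} < bnum

/-- The Menger property. -/
def Menger (Y : Type) [TopologicalSpace Y] : Prop := ∀ 𝓤 : ℕ → Set (Set Y),
  (∀ n, (∀ U ∈ 𝓤 n, IsOpen U) ∧ ⋃₀ 𝓤 n = Set.univ) → ∃ 𝓕 : ℕ → Set (Set Y),
    (∀ n, (𝓕 n).Finite ∧ 𝓕 n ⊆ 𝓤 n) ∧ ∀ y, ∃ᶠ n in atTop, y ∈ ⋃₀ 𝓕 n

theorem code {c : ℕ → ℕ} (hc : StrictMono c) : ∃ b, Inf b ∧ en b = c := by
  classical
  have h1 : {n | decide (n ∈ range c) = true} = range c := by ext n; simp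
  have h2 : {n | decide (n ∈ range c) = true}.Infinite := by
    rw [h1]; exact infinite_range_of_injective hc.injective
  exact ⟨fun n => decide (n ∈ range c), h2,
    ((Nat.nth_strictMono h2).range_inj hc).1 ((Nat.range_nth_of_infinite h2).trans h1)⟩

theorem step {f : ℕ → ℕ} (hf : StrictMono f) (n d : ℕ) : f n + d ≤ f (n + d) := by
  induction d with
  | zero => exact le_rfl
  | succ d ih => exact (Nat.succ_le_succ ih).trans (hf (Nat.lt_succ_self (n + d)))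

theorem bdd {F : Set (ℕ → Bool)} (h : F.Countable) : ∃ b, Inf b ∧ ∀ a ∈ F, LeS a b := by
  obtain ⟨z, hz⟩ := (h.insert fun _ => true).exists_eq_range (insert_nonempty _ _)
  obtain ⟨b, b1, b2⟩ := code (c := fun n => ∑ i ∈ Finset.range n, ∑ l ∈ Finset.range n, en (z i) (l + 1) + n)
    (Monotone.add_strictMono (monotone_nat_of_le_succ fun n =>
      (Finset.sum_le_sum fun i _ => Finset.sum_le_sum_of_subset
        (Finset.range_subset_range.2 n.le_succ)).trans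
          (Finset.sum_le_sum_of_subset (Finset.range_subset_range.2 n.le_succ))) strictMono_id)
  refine ⟨b, b1, fun a ha => ?_⟩
  obtain ⟨i, rfl⟩ := (hz ▸ mem_insert_of_mem _ ha : a ∈ range z)
  refine (eventually_gt_atTop i).mono fun n hn => ?_
  rw [b2]
  obtain ⟨l, rfl⟩ : ∃ l, n = l + 1 := ⟨n - 1, by omega⟩
  exact ((Finset.single_le_sum (f := fun l => en (z i) (l + 1)) (fun _ _ => Nat.zero_le _)
    (Finset.self_mem_range_succ l)).trans (Finset.single_le_sum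
      (f := fun i => ∑ l ∈ Finset.range (l + 1), en (z i) (l + 1)) (fun _ _ => Nat.zero_le _)
        (Finset.mem_range.2 hn))).trans (Nat.le_add_right _ _)

theorem result (hCH : continuum.{0} = aleph 1) :
    ∃ X : Set (ℕ → Bool), IsScale X ∧ Menger X := by
  classical
  obtain ⟨Y, a1, a2, a3, a4⟩ := towc hCH
  let s : (ℕ → Bool) → Set ℕ := fun x => {n | x n = true}
  let χ : Set ℕ → ℕ → Bool := fun A n => decide (n ∈ A)
  have s1 : ∀ A, s (χ A) = A := fun A => by ext n; simp [s, χ]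
  have s2 : ∀ x, χ (s x) = x := fun x => by ext n; simp [s, χ]
  have c1 : ∀ x, Inf x → ∀ n g, (∀ i ∈ s x, i < n ∨ g ≤ i) → g ≤ en x n := fun x hx n g h =>
    (h _ (Nat.nth_mem_of_infinite hx n)).resolve_left ((Nat.nth_strictMono hx).id_le n).not_gt
  have c2 : ¬ ∃ b, Inf b ∧ ∀ a ∈ s ⁻¹' Y, LeS a b := by
    rintro ⟨b, -, hb⟩
    obtain ⟨A, hA, h⟩ := a3 fun n => en b n + 1
    obtain ⟨n, d1, d2⟩ := (h.and_eventually (hb (χ A) (by rwa [mem_preimage, s1]))).exists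
    exact (c1 (χ A) (a1 (s (χ A)) (by rwa [s1])) n _ (by rwa [s1])).not_gt (Nat.lt_succ_of_le d2)
  have c3 : ℵ₀ < bnum := by
    obtain ⟨F, -, f2, f3⟩ := csInf_mem (s := {κ | ∃ F : Set (ℕ → Bool), (∀ a ∈ F, Inf a) ∧
      (¬ ∃ b, Inf b ∧ ∀ a ∈ F, LeS a b) ∧ #F = κ}) ⟨_, _, fun a ha => a1 _ ha, c2, rfl⟩
    exact not_le.1 fun e => f2 (bdd (le_aleph0_iff_set_countable.1 (f3.trans_le e)))
  refine ⟨s ⁻¹' Y, ⟨fun a ha => a1 _ ha, csInf_le' ⟨_, fun a ha => a1 _ ha, c2, rfl⟩,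
    fun b hb => ?_⟩, fun 𝓤 h => ?_⟩
  · obtain ⟨C, hC, h⟩ := a3 fun n => en b n + n
    let P : ℕ → Prop := fun n => ∀ i ∈ C, i < n ∨ en b n + n ≤ i
    obtain ⟨c, d1, d2⟩ := code (c := fun m => en b (Nat.findGreatest P m) + m)
      (Monotone.add_strictMono ((Nat.nth_strictMono hb).monotone.comp
        fun _ _ => Nat.findGreatest_mono_right P) strictMono_id)
    refine ⟨c, d1, h.mono fun n hn => ?_, lt_of_le_of_lt (le_aleph0_iff_set_countable.2
      (((a2 C hC).image χ).mono fun x hx => ?_)) c3⟩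
    · rw [d2]
      change _ ≤ en b (Nat.findGreatest P n) + n
      rw [Nat.findGreatest_eq (P := P) hn]
      exact Nat.le_add_right _ _
    refine ⟨s x, ⟨hx.1, fun e => hx.2 ?_⟩, s2 x⟩
    obtain ⟨n0, e1⟩ := eventually_atTop.1 e
    obtain ⟨n1, e2, e3⟩ := (h.and_eventually (eventually_ge_atTop n0)).exists
    refine (eventually_ge_atTop n1).mono fun m hm => ?_
    have e4 : P (Nat.findGreatest P m) := Nat.findGreatest_spec (P := P) hm e2
    have e5 : n1 ≤ Nat.findGreatest P m := Nat.le_findGreatest (P := P) hm e2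
    have e6 := Nat.findGreatest_le (P := P) m
    have e7 := c1 x (a1 _ hx.1) (Nat.findGreatest P m) (en b (Nat.findGreatest P m) +
      Nat.findGreatest P m) fun i hi => (lt_or_ge i (Nat.findGreatest P m)).elim Or.inl
        fun e8 => e4 i (e1 i (by omega) hi)
    have e8 := step (Nat.nth_strictMono (a1 _ hx.1)) (Nat.findGreatest P m)
      (m - Nat.findGreatest P m)
    rw [Nat.add_sub_cancel' e6] at e8
    rw [d2]
    change en x _ + _ ≤ en x m at e8
    change _ + m ≤ _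
    omega
  · obtain ⟨A0, hA0, -⟩ := a3 id
    have d1 : ∀ n, ∃ V : ℕ → Set (s ⁻¹' Y), (∀ i, V i ∈ 𝓤 n) ∧ ∀ y, ∃ i, y ∈ V i := fun n => by
      obtain ⟨T, t1, t2, t3⟩ := TopologicalSpace.isOpen_sUnion_countable (𝓤 n) (h n).1
      rw [(h n).2] at t3
      obtain ⟨U, t4, -⟩ := (t3 ▸ mem_univ _ : (⟨χ A0, by rwa [mem_preimage, s1]⟩ : s ⁻¹' Y) ∈ ⋃₀ T)
      obtain ⟨V, rfl⟩ := t1.exists_eq_range ⟨U, t4⟩
      exact ⟨V, fun i => t2 ⟨i, rfl⟩, fun y =>
        let ⟨_, ⟨i, rfl⟩, e⟩ := (t3 ▸ mem_univ y : y ∈ ⋃₀ range V); ⟨i, e⟩⟩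
    choose V v1 v2 using d1
    choose W w1 w2 using fun n i => isOpen_induced_iff.1 ((h n).1 _ (v1 n i))
    obtain ⟨k, m, b1, -, b2, -⟩ := a4 (fun n m A => ∃ i ≤ m, χ A ∈ W n i)
      (fun n m A ⟨i, d1, hA⟩ => by
        obtain ⟨I, t, c3, c4⟩ := isOpen_pi_iff.1 (w1 n i) _ hA
        exact ⟨I.sup id + 1, fun L hL => ⟨i, d1, c4 fun i hi => by
          have c5 : χ L i = χ A i := by
            simp [χ, hL i (Nat.lt_succ_of_le (Finset.le_sup (f := id) hi))]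
          exact c5 ▸ (c3 i hi).2⟩⟩) fun n F c3 c4 => Eventually.frequently
        ((eventually_all_finite c3).2 fun A hA => by
          obtain ⟨i, hi⟩ := v2 n ⟨χ A, by rw [mem_preimage, s1]; exact c4 hA⟩
          rw [← w2] at hi
          exact (eventually_ge_atTop i).mono fun m hm => ⟨i, hm, hi⟩)
    refine ⟨fun n => ⋃ j ∈ {j | k j = n}, V n '' Iic (m j), fun n =>
      ⟨(Set.Subsingleton.finite fun i hi j hj => b1.injective (hi.trans hj.symm)).biUnion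
        fun j _ => (finite_Iic _).image _, iUnion₂_subset fun j _ => ?_⟩, fun y =>
          b1.tendsto_atTop.frequently ((b2 _ y.2).mono fun j ⟨i, d1, d2⟩ =>
            ⟨V (k j) i, mem_iUnion₂.2 ⟨j, rfl, i, d1, rfl⟩, ?_⟩)⟩
    · rintro _ ⟨i, -, rfl⟩
      exact v1 n i
    · rw [← w2]
      rwa [s2] at d2

end Pool.Agent.Results.MP_1b3842_gt.Scale
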